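import Pool.Agent.H.MP_037fd6_co.B

set_option autoImplicit false

namespace Pool.Agent.Results.MP_037fd6_co.ZFC

open Cardinal

theorem result (k : ℕ) : ∃ (V : Type) (G : SimpleGraph V),
    IsLeast {c : Cardinal.{0} | ∃ α : Type, #α = c ∧ Nonempty (G.Coloring α)} ℵ₁ ∧
    ¬ (completeBipartiteGraph ℕ ℕ).IsContained G ∧
    ∀ r : ℕ, 1 ≤ r → r ≤ k → ¬ (SimpleGraph.cycleGraph (2 * r + 1)).IsContained G :=
  Pool.Agent.H.MP_037fd6_co.main k

end Pool.Agent.Results.MP_037fd6_co.ZFC
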